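import Pool.Agent.V1138.BO.Many
import Pool.Agent.V1138.FP.Fam
import Pool.Agent.Y152.RP.FamM

/-!
# MP_defd1c_ag: Zilber-Pink for all but finitely many members of one-parameter families in
`Y(1)^n × G_m^k` with parameters in a backward orbit

**Parameters.** Let `φ_1, …, φ_r` and `g` be polynomials with integral coefficients such that all the
composites `g ∘ φ_{i_1} ∘ … ∘ φ_{i_m}` are irreducible, and `deg g · deg φ_i ≥ 2` for all `i`
(`IrreducibleComposites`). The backward orbit of the roots of `g` (`InBackwardOrbit`) is the set of the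
complex numbers `t` with `g (φ_{i_1} (… (φ_{i_m} (t)))) = 0` for some word `i_1 … i_m`. For `r = 1` and
`g = X - β` these are the iterated preimages of `β` under a polynomial map. The parameters are
algebraic numbers of unbounded degree. A rational number `α` is wandering (`Wandering`) if for every
`y` there are only finitely many words with `φ_{i_1} (… (φ_{i_m} (α))) = y` (for `r = 1`: `α` is not
preperiodic).

**Families.** The families (`scaledImage`, `InGeneralPosition`, ...) are those of the starting result
`DivisionGroupParameters` of this problem, where the parameters are of bounded degree, radicals or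
roots of unity.

**Theorem.** (1) Families of subsets of `Y(1)^n × G_m^k` of any dimension `m`, given by quotients of
forms `A_i / B_i`, integral equations `R_i` over `K[j]` and scaling polynomials `c_i`, which degenerate
(positive independent orders of the `c_i`, divisors in general position) at `M` wandering rational
parameters, `M ≥ n (n - 1) / 2 + k 2^k + 1`: all but finitely many of the members with parameter in the
backward orbit have no atypical intersection with the products of special subvarieties and torsion
cosets (more general constants are allowed).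
(2) In the pure case `k = 0`, with orders independent on polygons, `M ≥ m + 2` degenerate members are
enough, independently of `n`.

The case `m = 1` of (2) is the starting result `MP_6e1a06_nt.BackwardOrbits`, whose arithmetic
(`Pool.Agent.V1138.BO`) is used here: for all but finitely many words the (homogenized) value at a
wandering `α` of the minimal polynomial `g ∘ φ_{i_1} ∘ … ∘ φ_{i_m}` has a prime factor larger than a
given number, by the unit equation.
-/

set_option autoImplicit false

namespace Pool.Agent.Results.MP_defd1c_ag.BackwardOrbits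

open MvPolynomial
open Pool.Agent.V1138.BO (cmp act)

/-- `t` is in the backward orbit of the roots of `g` under the semigroup generated by the
polynomials `φ i`: `g (φ_{i_1} (… (φ_{i_m} (t)))) = 0` for some word `i_1 … i_m`. -/
def InBackwardOrbit {r : ℕ} (φ : Fin r → Polynomial ℤ) (g : Polynomial ℤ) (t : ℂ) : Prop :=
  ∃ w : List (Fin r), Polynomial.aeval (act φ w t) g = 0

/-- All composites `g ∘ φ_{i_1} ∘ … ∘ φ_{i_m}` are irreducible, and those with `m = 1` have degree at
least two. -/
def IrreducibleComposites {r : ℕ} (φ : Fin r → Polynomial ℤ) (g : Polynomial ℤ) : Prop :=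
  (∀ w : List (Fin r), Irreducible (cmp φ g w)) ∧ ∀ i, 2 ≤ g.natDegree * (φ i).natDegree

/-- Every number is the image of `α` for only finitely many words. -/
def Wandering {r : ℕ} (φ : Fin r → Polynomial ℤ) (α : ℚ) : Prop :=
  ∀ y : ℚ, {w : List (Fin r) | act φ w α = y}.Finite

/-- One-parameter families which degenerate at sufficiently many wandering rational parameters: all
but finitely many of the members with parameter in the backward orbit have no atypical intersection,
in `Y(1)^n × G_m^k`; in `Y(1)^n` `m + 2` degenerate members are enough. -/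
theorem result (q : ℕ) (φ : Fin q → Polynomial ℤ) (g : Polynomial ℤ)
    (hφ : IrreducibleComposites φ g) (K : Subfield ℂ) [Countable K] :
    -- (1) `Y(1)^n × G_m^k`
    (∀ (κ : Type) [Finite κ] (N n k m M T : ℕ)
      (G : κ → MvPolynomial (Fin (N + 1)) (Polynomial K)) (_ : ∀ a, ∃ e, (G a).IsHomogeneous e)
      (A B : Fin n ⊕ Fin k → MvPolynomial (Fin (N + 1)) (Polynomial K)) (δ : Fin n ⊕ Fin k → ℕ)
      (_ : ∀ i, (A i).IsHomogeneous (δ i)) (_ : ∀ i, (B i).IsHomogeneous (δ i))
      (R : Fin n → Polynomial (Polynomial K)) (_ : ∀ i, (R i).Monic)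
      (_ : ∀ i u w, ((R i).coeff u).coeff w ≠ 0 → u ≤ T ∧ w ≤ T)
      (c : Fin n ⊕ Fin k → Polynomial K) (α : Fin M → ℚ)
      (_ : Pool.Agent.Y152.RP.FamM.IndependentExponents T
        fun l i => (c i).rootMultiplicity ((α l : ℚ) : K))
      (_ : ∀ l, Pool.Agent.Y152.RP.FamM.InGeneralPosition ((α l : ℚ) : ℂ) m G A B)
      (Γ : Finset ℂ) (_ : ∀ γ ∈ Γ, γ ∈ K) (_ : ∀ l, Wandering φ (α l))
      (_ : n.choose 2 + k * 2 ^ k + 1 ≤ M),
      {t : ℂ | InBackwardOrbit φ g t ∧ ¬ Pool.Agent.Y152.RP.FamM.NoAtypical
        (algebraMap (Algebra.adjoin ℤ (Γ : Set ℂ)) ℂ) K m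
          (Pool.Agent.Y152.RP.FamM.scaledImage t G A B R c)}.Finite) ∧
    -- (2) `Y(1)^n`, `m + 2` degenerate members
    (∀ (κ : Type) [Finite κ] (N n m M T : ℕ)
      (G : κ → MvPolynomial (Fin (N + 1)) (Polynomial K)) (_ : ∀ a, ∃ e, (G a).IsHomogeneous e)
      (A B : Fin n → MvPolynomial (Fin (N + 1)) (Polynomial K)) (δ : Fin n → ℕ)
      (_ : ∀ i, (A i).IsHomogeneous (δ i)) (_ : ∀ i, (B i).IsHomogeneous (δ i))
      (R : Fin n → Polynomial (Polynomial K)) (_ : ∀ i, (R i).Monic)
      (_ : ∀ i u w, ((R i).coeff u).coeff w ≠ 0 → u ≤ T ∧ w ≤ T)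
      (c : Fin n → Polynomial K) (α : Fin M → ℚ)
      (_ : Pool.Agent.V1138.FP.IndependentOnPolygons T
        fun l i => (c i).rootMultiplicity ((α l : ℚ) : K))
      (_ : ∀ l, Pool.Agent.Y152.RP.Fam.InGeneralPosition ((α l : ℚ) : ℂ) m G A B)
      (Γ : Finset ℂ) (_ : ∀ γ ∈ Γ, γ ∈ K) (_ : ∀ l, Wandering φ (α l)) (_ : m + 2 ≤ M),
      {t : ℂ | InBackwardOrbit φ g t ∧ ¬ Pool.Agent.Y152.RP.Fam.NoAtypical
        (algebraMap (Algebra.adjoin ℤ (Γ : Set ℂ)) ℂ) K m
          (Pool.Agent.Y152.RP.Fam.scaledImage t G A B R c)}.Finite) := by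
  refine ⟨?_, ?_⟩
  · intro κ _ N n k m M T G hG A B δ hA hB R hR hT c α hind hpos Γ hΓ hα hM
    exact Pool.Agent.Y152.RP.FamM.family K κ N n k m M T G hG A B δ hA hB R hR hT c α hind hpos Γ hΓ
      {t | InBackwardOrbit φ g t} (fun t ht => Pool.Agent.V1138.BO.alg_of_backward φ g hφ.1 t ht) hM
      fun D => Pool.Agent.V1138.BO.finite_badB D hM α φ g hφ.2 hφ.1 hα
  · intro κ _ N n m M T G hG A B δ hA hB R hR hT c α hind hpos Γ hΓ hα hM
    exact Pool.Agent.V1138.FP.few K κ N n m M T G hG A B δ hA hB R hR hT c α hind hpos Γ hΓ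
      {t | InBackwardOrbit φ g t} (fun t ht => Pool.Agent.V1138.BO.alg_of_backward φ g hφ.1 t ht) hM
      fun D => Pool.Agent.V1138.BO.finite_badB D hM α φ g hφ.2 hφ.1 hα

end Pool.Agent.Results.MP_defd1c_ag.BackwardOrbits
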